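import Mathlib
import Pool.Agent.R263.KD.Defs
import Pool.Agent.R263.KD.DefsX
import Pool.Agent.R263.KD.DefsG
import Pool.Agent.R263.KD.A
import Pool.Agent.R263.KD.B
import Pool.Agent.R263.KD.C
import Pool.Agent.R263.KD.M
import Pool.Agent.R263.KD.R
import Pool.Agent.R263.KD.F
import Pool.Agent.R263.KD.G
import Pool.Agent.R263.KD.E
import Pool.Agent.R263.KD.E1
import Pool.Agent.R263.KD.E2
import Pool.Agent.R263.KD.E4
import Pool.Agent.R263.KD.P
import Pool.Agent.R263.KD.W

/-!
# A constant sequence with a generalized `(C, λ)`-structure that is not generalized hyperbolic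

Q1 of MP_dd2ee2_an is answered in the negative: there are a (real) Banach space `B` and a linear
isomorphism `T` of `B` such that the constant sequence `A_k = T` has a generalized
`(C, λ)`-structure although `T` is not generalized hyperbolic.

Sketch.  If `T` is generalized hyperbolic then `M = E^s ⊕ T⁻¹ E^u` is a common complement of
`ker (T - 1)` and `ker (T + 1)`, so these spaces are isomorphic (`E1`).  For every real Banach space
`X` with commuting operators `y₁, y₂, t`, `y₁² + y₂² + t² = 1`, an explicit `4 × 4` matrix over
`ℝ[y₁, y₂, t, ν, ν⁻¹]` whose square is `ν` (`E4`), applied to the weighted bilateral shift `ν = N`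
over `X` (`G`), gives an operator `T` with `T² = N ⊕ N ⊕ N ⊕ N` generalized hyperbolic, hence with a
structure of period `2` (`E2`), for which `ker (T - 1) ≅ X²` and
`ker (T + 1) ≅ {u ∈ X³ : y₁ u₁ + y₂ u₂ + t u₃ = 0}` (`E`).  Finally there is a Banach space `X` with a
unital homomorphism from its operator algebra onto `C(S²)` that is a retraction onto the
multiplication operators (`A`, `B`, `C`, `M`, `R`; functions on `ω₁` with values in `C(S²)` whose
value at the `n`-th point of a dense sequence is left continuous on the `n`-th of countably many
disjoint stationary sets, `W`; Phillips' lemma, `P`).  For this `X` an isomorphism would give a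
nowhere vanishing tangent field of the sphere (`F`).
-/

namespace Pool.Agent.Results.MP_dd2ee2_an.TimeDependentSplitting

open Pool.Agent.R263.KD

/-- There are a real Banach space `B` and a linear isomorphism `T : B → B` such that the constant
sequence `(T)_{k ∈ ℤ}` has a generalized `(C, λ)`-structure but `T` is not generalized
hyperbolic. -/
theorem result :
    ∃ (B : Type) (_ : NormedAddCommGroup B) (_ : NormedSpace ℝ B) (_ : CompleteSpace B)
      (T : B ≃L[ℝ] B), GenStructure (fun _ : ℤ => T) ∧ ¬ GenHyp T := by
  have hA : StmtA := stmtA
  have hF : StmtF := stmtF stmtW (stmtB hA) (stmtC hA stmtP) (stmtM hA) stmtR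
  obtain ⟨X, i1, i2, i3, y1, y2, t, h12, h13, h23, hs, hno⟩ := hF
  exact stmtE stmtG stmtE1 stmtE2 (stmtE4b stmtE4a) X y1 y2 t h12 h13 h23 hs hno

end Pool.Agent.Results.MP_dd2ee2_an.TimeDependentSplitting
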